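import Pool.Agent.Lib.MP_ab497f_al.Tree
import Pool.Agent.Lib.MP_ab497f_al.FreeSpec
import Pool.Agent.Lib.MP_ab497f_al.NP2
import Pool.Agent.Lib.MP_ab497f_al.Amp
import Pool.Agent.Lib.MP_ab497f_al.GtAll
import Pool.Agent.Lib.MP_ab497f_al.Stair0
import Pool.Agent.Lib.MP_ab497f_al.PumpInt
import Pool.Agent.Lib.MP_ab497f_al.StairS

/-!
# No finitely generated group containing `ℤ² * ℤ` is co-context-free
-/

set_option autoImplicit false

namespace Pool.Agent.Results.MP_ab497f_al.Overgroups

/-- The co-word problem of `G` over `α`, a letter `a` standing for the element `f a`: the words over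
`α` which do not represent the identity. -/
def coWP {α G : Type} [Group G] (f : α → G) : Language α :=
  {w : List α | (w.map f).prod ≠ 1}

/-- `G` is co-context-free: there is a finite set `A` of monoid generators of `G` for which the
co-word problem `coWP(G, A)` is a context-free language. -/
def CoContextFree (G : Type) [Group G] : Prop :=
  ∃ A : Set G, A.Finite ∧ Submonoid.closure A = ⊤ ∧
    (coWP (fun a : A => (a : G))).IsContextFree

/-- The group `ℤ² * ℤ = ⟨a, b, c | a b = b a⟩`, the relator being `a b a⁻¹ b⁻¹`. -/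
abbrev Gam : Type :=
  PresentedGroup ({FreeGroup.of (0 : Fin 3) * FreeGroup.of 1 * (FreeGroup.of 0)⁻¹ *
    (FreeGroup.of 1)⁻¹} : Set (FreeGroup (Fin 3)))

section Embedding

open MPab

/-- The generators of `ℤ² * ℤ`. -/
def gen (i : Fin 3) : Gam := PresentedGroup.of i

theorem gen_comm : Commute (gen 0) (gen 1) := by
  have h : gen 0 * gen 1 * (gen 0)⁻¹ * (gen 1)⁻¹ = 1 :=
    PresentedGroup.one_of_mem (Set.mem_singleton _)
  have h2 : gen 0 * gen 1 * (gen 0)⁻¹ = gen 1 := mul_inv_eq_one.1 h
  exact mul_inv_eq_iff_eq_mul.1 h2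

/-- `ℤ² → ⟨a, b, c | a b = b a⟩`. -/
def fromZ2 : Multiplicative (ℤ × ℤ) →* Gam where
  toFun z := gen 0 ^ (Multiplicative.toAdd z).1 * gen 1 ^ (Multiplicative.toAdd z).2
  map_one' := by simp
  map_mul' x y := by
    rw [toAdd_mul, Prod.fst_add, Prod.snd_add, zpow_add, zpow_add]
    have h : Commute (gen 0 ^ (Multiplicative.toAdd y).1) (gen 1 ^ (Multiplicative.toAdd x).2) :=
      (gen_comm.zpow_left _).zpow_right _
    simp only [mul_assoc]
    rw [← mul_assoc (gen 0 ^ (Multiplicative.toAdd y).1) (gen 1 ^ (Multiplicative.toAdd x).2),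
      h.eq]
    simp only [mul_assoc]

/-- The map of the free product to the presented group. -/
def phi : GG →* Gam := Monoid.Coprod.lift fromZ2 (zpowersHom Gam (gen 2))

/-- The images of the generators in the free product. -/
def img (i : Fin 3) : GG :=
  ![(Monoid.Coprod.inl (Multiplicative.ofAdd ((1, 0) : ℤ × ℤ)) : GG),
    Monoid.Coprod.inl (Multiplicative.ofAdd ((0, 1) : ℤ × ℤ)),
    Monoid.Coprod.inr (Multiplicative.ofAdd (1 : ℤ))] i

theorem img_comm : img 0 * img 1 = img 1 * img 0 := by
  change (Monoid.Coprod.inl (Multiplicative.ofAdd ((1, 0) : ℤ × ℤ)) : GG) *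
    (Monoid.Coprod.inl (Multiplicative.ofAdd ((0, 1) : ℤ × ℤ)) : GG) =
    (Monoid.Coprod.inl (Multiplicative.ofAdd ((0, 1) : ℤ × ℤ)) : GG) *
    (Monoid.Coprod.inl (Multiplicative.ofAdd ((1, 0) : ℤ × ℤ)) : GG)
  rw [← MonoidHom.map_mul, ← MonoidHom.map_mul]
  rfl

/-- The inverse map. -/
def psi : Gam →* GG := PresentedGroup.toGroup (f := img) (by
  rintro r hr
  rw [Set.mem_singleton_iff] at hr
  subst hr
  simp only [map_mul, map_inv, FreeGroup.lift_apply_of]
  rw [img_comm, mul_inv_cancel_right, mul_inv_cancel])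

theorem psi_gen (i : Fin 3) : psi (gen i) = img i := PresentedGroup.toGroup.of _

theorem psi_phi : psi.comp phi = MonoidHom.id GG := by
  apply Monoid.Coprod.hom_ext
  · refine MonoidHom.ext fun z : Multiplicative (ℤ × ℤ) => ?_
    change psi (phi (Monoid.Coprod.inl z)) = (Monoid.Coprod.inl z : GG)
    have h1 : phi (Monoid.Coprod.inl z) = fromZ2 z := Monoid.Coprod.lift_apply_inl _ _ _
    rw [h1]
    change psi (gen 0 ^ (Multiplicative.toAdd z).1 * gen 1 ^ (Multiplicative.toAdd z).2) = _
    rw [map_mul, map_zpow, map_zpow, psi_gen, psi_gen]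
    change (Monoid.Coprod.inl (Multiplicative.ofAdd ((1, 0) : ℤ × ℤ)) : GG) ^
        (Multiplicative.toAdd z).1 *
      (Monoid.Coprod.inl (Multiplicative.ofAdd ((0, 1) : ℤ × ℤ)) : GG) ^
        (Multiplicative.toAdd z).2 = (Monoid.Coprod.inl z : GG)
    rw [← MonoidHom.map_zpow, ← MonoidHom.map_zpow, ← MonoidHom.map_mul]
    congr 1
    apply Multiplicative.toAdd.injective
    rw [toAdd_mul, toAdd_zpow, toAdd_zpow]
    ext <;> simp
  · refine MonoidHom.ext fun z : Multiplicative ℤ => ?_
    change psi (phi (Monoid.Coprod.inr z)) = (Monoid.Coprod.inr z : GG)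
    have h1 : phi (Monoid.Coprod.inr z) = gen 2 ^ (Multiplicative.toAdd z) := by
      rw [phi, Monoid.Coprod.lift_apply_inr]
      rfl
    rw [h1, map_zpow, psi_gen]
    change (Monoid.Coprod.inr (Multiplicative.ofAdd (1 : ℤ)) : GG) ^
      (Multiplicative.toAdd z) = (Monoid.Coprod.inr z : GG)
    rw [← MonoidHom.map_zpow]
    congr 1
    apply Multiplicative.toAdd.injective
    rw [toAdd_zpow]
    simp

theorem phi_injective : Function.Injective phi := by
  intro x y h
  have hx := congrArg (fun q => q x) psi_phi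
  have hy := congrArg (fun q => q y) psi_phi
  change psi (phi x) = x at hx
  change psi (phi y) = y at hy
  rw [← hx, h, hy]

/-- The axioms used in the proof are inherited by every overgroup. -/
theorem transport {G : Type} [Group G] (θ : GG →* G) (hθ : Function.Injective θ)
    {ι : Z2 →* GG} {c : GG} {Pr : ℕ → GG → Prop} (h : FreeAx ι c Pr) :
    FreeAx (θ.comp ι) (θ c) fun L u => ∃ v, u = θ v ∧ Pr L v where
  base z hz := ⟨ι z, rfl, h.base z hz⟩
  boost := by
    rintro L _ ⟨v, rfl, hv⟩ z hz y n₁ n₂ hn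
    refine ⟨_, ?_, h.boost L v hv z hz y n₁ n₂ hn⟩
    simp only [map_mul, map_inv, map_pow, MonoidHom.comp_apply]
  comm := by
    rintro L _ _ ⟨u, rfl, hu⟩ ⟨v, rfl, hv⟩
    refine ⟨_, ?_, h.comm L u v hu hv⟩
    simp only [map_mul, map_inv, map_pow]
  ne := by
    rintro L _ ⟨u, rfl, hu⟩ h1
    exact h.ne L u hu (hθ (by rw [h1, map_one]))

theorem main {G : Type} [Group G] (j : Gam →* G) (hj : Function.Injective j) {α : Type}
    [Finite α] (f : α → G) (hf : Submonoid.closure (Set.range f) = ⊤) :
    ¬ (coWP f).IsContextFree := by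
  have hBLR : SpecBLR := specBLR (specPUMPINT specPLAN) specPORT specSTAIR0 specSTAIR specCONT
  have hMB : SpecMAINBLOB := specMAINBLOB specLOCL specLOCR specCONT
  have hMS : SpecMAINSUB := specMAINSUB specLOCL specLOCR specCONT specLL specNWEX
    specNWLEN specNWPOS
  have hGT : SpecGT := specGT (specITER (specBOOST (specNP2 specNP1))) specAMP specEND
  have hCF : SpecCF := specCF specCNF specTREE specSOUND specLL specDIRS
    specPLAN hBLR (specBLL specPLAN hBLR) specNWLEN specNWEX specNWPOS
    specCOST (specMAIN hMB hMS specNWPOS)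
  intro hcf
  have hs := surj_of_closure f hf
  obtain ⟨Pr, hPr⟩ := specFREE
  have hθ : Function.Injective (j.comp phi) := hj.comp phi_injective
  have hax := transport (j.comp phi) hθ hPr
  have hι : Function.Injective ((j.comp phi).comp
      (Monoid.Coprod.inl : Multiplicative (ℤ × ℤ) →* GG)) :=
    hθ.comp Monoid.Coprod.inl_injective
  obtain ⟨T, hT, A, K, P0, hK, H⟩ := hCF f _ hι hs hcf
  obtain ⟨Ω, hΩ, g, hg, hgood⟩ := hGT f K P0 A _ _ _ hs hK hax
  obtain ⟨τ, r, hr, h1, h2⟩ := H Ω hΩ g hg
  exact h2 (hgood τ r hr h1)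

end Embedding

/-- **`ℤ² * ℤ` is not co-context-free**, and neither is any group which contains a copy of it:
for every group `G` with an injective homomorphism `⟨a, b, c | a b = b a⟩ → G`, every finite
alphabet `α` and every map `f : α → G` whose image generates `G` as a monoid, the language of the
words over `α` which do not represent `1` is not context-free. -/
theorem result :
    ¬ CoContextFree Gam ∧
    ∀ (G : Type) (_ : Group G), (∃ j : Gam →* G, Function.Injective j) →
      ¬ CoContextFree G ∧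
      ∀ (α : Type) (_ : Finite α) (f : α → G), Submonoid.closure (Set.range f) = ⊤ →
        ¬ (coWP f).IsContextFree := by
  have hmain : ∀ (G : Type) (_ : Group G), (∃ j : Gam →* G, Function.Injective j) →
      ¬ CoContextFree G ∧
      ∀ (α : Type) (_ : Finite α) (f : α → G), Submonoid.closure (Set.range f) = ⊤ →
        ¬ (coWP f).IsContextFree := by
    rintro G _ ⟨j, hj⟩
    have h2 : ∀ (α : Type) (_ : Finite α) (f : α → G), Submonoid.closure (Set.range f) = ⊤ →
        ¬ (coWP f).IsContextFree := fun α _ f hf => main j hj f hf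
    refine ⟨?_, h2⟩
    rintro ⟨A, hA, hgen, hcf⟩
    have : Finite A := hA
    refine h2 A this (fun a => (a : G)) ?_ hcf
    rw [Subtype.range_coe]
    exact hgen
  exact ⟨(hmain Gam inferInstance ⟨MonoidHom.id Gam, Function.injective_id⟩).1, hmain⟩

end Pool.Agent.Results.MP_ab497f_al.Overgroups
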